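import Pool.Agent.TH131.LChi.Main

/-!
# Independence of `ℓ` of local Euler factors and cubic hypersurfaces
-/

set_option autoImplicit false

open CategoryTheory AlgebraicGeometry

namespace Pool.Agent.Results.MP_898f40_nt.CubicHypersurfaces

open Pool.Agent.TH90.Cub Pool.Agent.TH590.JH Pool.Agent.TH131.LInd Pool.Agent.TH131.LChi

/-- **Independence of `ℓ` of local Euler factors and cubic hypersurfaces.** Let `p` be a prime. The
following are equivalent:

* for all smooth projective `X` over `ℚ`, all `i` and `n ≥ 1`, the trace of `F_p^n` on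
  `H^i(X_{\bar ℚ}, ℚ_ℓ)^{I_p}` is a rational number which does not depend on `ℓ ≠ p`;
* for all hypersurfaces `C` with an equation `g_0 t_0 + ⋯ + g_r t_r = 1` in the affine space over `ℚ`
  with the coordinates `x_1, …, x_n, t_0, …, t_r`, each `g_i` being of the form `x_a x_b - x_c`,
  `x_a + x_b - x_c` or `x_a - 1`, all `w` and `n ≥ 1`, the number
  `∑_j (-1)^j tr(F_p^n | (Gr^W_w H_c^j(C_{\bar ℚ}, ℚ_ℓ))^{I_p})` is rational and does not depend on
  `ℓ ≠ p`.

If they hold, the second statement is true for all separated schemes of finite type over `ℚ`. The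
hypersurfaces `C` are smooth over `ℚ`. -/
theorem result (p : ℕ) (hp : p.Prime) (𝓘 : Invariants (Coefficients p))
    (hres : Pool.Agent.TH131.WCub.Resolution) (h1 : 𝓘.Functorial) (h2 : 𝓘.Additive) (h3 : 𝓘.Line)
    (h4 : 𝓘.Pure) :
    (𝓘.ForProjective ↔ 𝓘.ForCubics) ∧ (𝓘.ForProjective → 𝓘.ForSchemes) ∧ CubicsSmooth ℚ := by
  have h := 𝓘.main hp.ne_zero hres h1 h2 h3 h4
  exact ⟨h.1, h.2, cubicsSmooth ℚ⟩

end Pool.Agent.Results.MP_898f40_nt.CubicHypersurfaces
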