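import Pool.Agent.TH26.MD.Main

/-!
# Local factors: it suffices to consider the middle cohomology

Fix a prime number `p`. `G` is the Galois group of the field of `p`-adic numbers, `I` its inertia group,
`F` a geometric Frobenius. `D` is the `ℓ`-adic cohomology, `ℓ ≠ p`, with coefficients in `K l` (the field
of `ℓ`-adic numbers), of a class of smooth projective varieties over `ℚ` (for example all of them)
closed under products with projective spaces, and `IsCohomology` lists the known facts which are used:
the cohomology of `X × P^a`, the hard Lefschetz theorem, and the integrality of the eigenvalues of the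
geometric Frobenius on the cohomology. `H^i(X)` is called good if the polynomials
`P_{p,ℓ}(T) = det(1 - T F | H^i(X)^I)` have coefficients in `ℤ` and are the same for all `ℓ ≠ p`.

(1) Let `d ≥ 2 dim X`. If the middle cohomology `H^d(Y)` is good for the varieties `Y = X × P^a × P^b` of
dimension `d` (`a + b = d - dim X`), then `H^i(X)` is good for all `i` with `0 ≤ i ≤ 2 dim X` and the
parity of `d`.

(2) Let `S` be a set of natural numbers which contains arbitrarily large even and arbitrarily large odd
numbers. Then `H^i(X)` is good for all `X` and all `i` if and only if the middle cohomology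
`H^(dim Y)(Y)` is good for all `Y` whose dimension lies in `S`.

Proof. In the Grothendieck group of representations the middle cohomology of `X × P^a × P^b` is the sum of
`H^(d-2j)(X)(-j)` over `0 ≤ j ≤ r = a + b` with multiplicities `min(j, r-j, a, b) + 1`. The second
differences of these multiplicities, as functions of `b`, isolate the indices `b` and `r - b`, and by the
hard Lefschetz theorem the two corresponding representations are isomorphic. So the square of the local
factor of `H^(d-2b)(X)(-b)` is rational and independent of `ℓ`, and then so is the factor itself.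
-/

open Polynomial

set_option autoImplicit false

universe u v w x y

namespace Pool.Agent.Results.MP_898f40_nt.MiddleDegree

open Pool.Agent.TH26.MD

/-- (1) The local factors at `p` of `H^i(X)` are integral and independent of `ℓ` for all `i` of the
parity of `d ≥ 2 dim X` if this is so for the middle cohomology of all `X × P^a × P^b` of dimension `d`.
(2) The local factors of `H^i(X)` are integral and independent of `ℓ` for all `X` and `i` if and only if this
is so for the middle cohomology of all `Y` with `dim Y` in `S`, for any set `S` with arbitrarily large even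
and arbitrarily large odd members. -/
theorem result {G : Type u} [Group G] {ι : Type v} {K : ι → Type w} [∀ l, Field (K l)]
    [∀ l, CharZero (K l)] (D : Cohomology.{u, v, w, x, y} G ι K) (I : Subgroup G) [I.Normal]
    (F : G) (p : ℕ) (hp : p ≠ 0) (χ : ∀ l, G →* K l) (hD : D.IsCohomology I F p χ) :
    (∀ (X : D.Var) (d : ℕ), 2 * D.dim X ≤ d →
      (∀ a b : ℕ, a + b + D.dim X = d → D.Good I F (D.timesP (D.timesP X a) b) d) →
      ∀ i : ℤ, 0 ≤ i → i ≤ 2 * D.dim X → Even ((d : ℤ) - i) → D.Good I F X i) ∧
    (∀ S : Set ℕ, (∀ B : ℕ, ∃ d ∈ S, B ≤ d ∧ Even d) → (∀ B : ℕ, ∃ d ∈ S, B ≤ d ∧ Odd d) →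
      ((∀ (X : D.Var) (i : ℤ), 0 ≤ i → i ≤ 2 * D.dim X → D.Good I F X i) ↔
        ∀ Y : D.Var, D.dim Y ∈ S → D.Good I F Y (D.dim Y))) :=
  ⟨fun X d hd h i hi hi2 he => good_of_middle hD hp X d hd h i hi hi2 he,
    fun _ h0 h1 => good_iff hD hp h0 h1⟩

end Pool.Agent.Results.MP_898f40_nt.MiddleDegree
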