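import Mathlib
import Pool.Agent.TH131.LIndF.Main

/-!
# Local Euler factors at all primes for residue classes in families

Let `𝒳 → 𝔸^r_ℚ ∖ {Δ = 0}` be a smooth projective family. Suppose that for each prime `p` there is
one point `t` of `𝔸^r_ℚ ∖ {Δ = 0}` with coordinates in `ℤ_p` such that the local factors of the
variety `𝒳_t` over `ℚ_p` have integral coefficients and do not depend on `ℓ` (for example `𝒳_t` has
good reduction). Then there is a residue class in `ℤ^r` such that for all `t` in this residue class
with `Δ(t) ≠ 0` the local factors at all primes `p`, of good or bad reduction, of `H^i(𝒳_t)` have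
integral coefficients and do not depend on `ℓ`, for all `i`.

For example, let `Z` be a smooth projective scheme over `ℤ` and `𝒳` the family of the smooth
sections of `Z_ℚ` by hypersurfaces of degree `e`, such that for each `p` there is a section of `Z`
over `ℤ_p` which is smooth.

* `𝒮`, `hE`: the smooth projective varieties of bounded degree over nonarchimedean local fields of
  both characteristics, and the theorem for local fields of positive characteristic.
* `M₀`, `hT`: for all but finitely many residue characteristics the cohomology of each variety is
  isomorphic to the cohomology of a variety over a local field of positive characteristic.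
* `𝒳`, `hk`, `hg`: the family, the local constancy of its cohomology, the condition.
-/

set_option autoImplicit false

namespace Pool.Agent.Results.MP_898f40_nt.ResidueClassesInFamilies

open Pool.Agent.TH131.LInd

/-- If for each prime `p` the local factors of one member over `ℤ_p` are integral and independent of
`ℓ`, then the local factors at all primes of all members in a residue class in `ℤ^r` are. -/
theorem result {K : ℕ → Type} [∀ ℓ, Field (K ℓ)] {𝒮 : LocalVarieties K}
    (hE : 𝒮.EqualCharacteristic) {M₀ : ℕ} (hM : 0 < M₀) (hT : 𝒮.Transfer M₀)
    (𝒳 : AffineFamily 𝒮) (hk : 𝒳.IsLocallyConstant)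
    (hg : ∀ (p : ℕ) [Fact p.Prime], ∃ t : Fin 𝒳.r → ℤ_[p], IsPoint 𝒳.Δ t ∧ 𝒳.Holds p t) :
    ∃ (m : ℕ) (a : Fin 𝒳.r → ℤ), 0 < m ∧ ∀ t : Fin 𝒳.r → ℤ, (∀ i, t i ≡ a i [ZMOD m]) →
      IsPoint 𝒳.Δ t → 𝒳.HoldsEverywhere t :=
  residue_class hM hE hT 𝒳 hk hg

end Pool.Agent.Results.MP_898f40_nt.ResidueClassesInFamilies
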