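import Pool.Agent.TH121.WV.Main

/-!
# MP_898f40_nt: local Euler factors and Weil-Deligne representations of varieties

Fix a prime `p`. `R : Realisations W Λ K` and `𝒱 : Varieties R` collect the Weil-Deligne
representations at `p` attached to the `ℓ`-adic cohomology groups `H^i(X)` of the smooth projective
varieties `X` over `ℚ`, `ℓ ≠ p`, and `IsCohomology G 𝒱` lists the known properties which are used
(see the files of the definitions).

The statement Q1 of the problem at `p` (for all smooth projective varieties `X` over `ℚ` and all `i`
the polynomial `det(1 - F_p T)` on the inertia invariants of `H^i(X)` has integral coefficients and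
does not depend on `ℓ ≠ p`) holds if and only if for all smooth projective varieties `X` over `ℚ`, all
`i`, all `t ≥ 0` and **all** elements `w` of the Weil group of `ℚ_p` the trace of `w` on the kernel of
`N^t` in the Weil-Deligne representation attached to `H^i(X)` is a rational number which does not
depend on `ℓ ≠ p`.

The second statement is the conjecture `C_WD` of Fontaine for the cohomology of varieties: the
Weil-Deligne representations attached to `H^i(X)`, for `ℓ ≠ p`, have rational characters and are
isomorphic over the complex numbers up to Frobenius semisimplification. It includes the independence
of `ℓ` of the monodromy filtration, of the conductor and of the action of the inertia group up to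
semisimplification.

The equivalence holds for every class of smooth projective varieties which is closed under the
products `X ↦ X × E`, for an elliptic curve `E` over `ℚ` with split multiplicative reduction at `p`,
and `X ↦ X × Spec L`, for number fields `L`; for one variety `X` it says that the compatibility of the
Weil-Deligne representations of the varieties `X × E^m × Spec L` is equivalent to Q1 for them.

Proof. `H^i(X × E) = H^i(X) ⊕ H^(i-1)(X) ⊗ H^1(E) ⊕ H^(i-2)(X)(-1)`, and for a Weil-Deligne
representation `V` the kernel of `N^m` on `V ⊗ H^1(E)` is isomorphic to the sum of the kernels of
`N^(m+1)` on `V` and of `N^(m-1)` on `V(-1)`, by the map `(v₀, v₁) ↦ (v₀, N v₀ + m v₁)`. So the case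
of the kernel of `N^(m+1)` follows from the cases of the kernels of `N^m` and `N^(m-1)`. The case of the
kernel of `N` and of elements of positive degree follows from Q1 for the varieties `X × Spec L`, and
the other elements are treated with the theorem of Cayley and Hamilton. The converse uses averages over
the inertia group and the integrality of the eigenvalues of Frobenius.
-/

set_option autoImplicit false

namespace Pool.Agent.Results.MP_898f40_nt.WeilDeligneVarieties

open Pool.Agent.TH121 Pool.Agent.TH121.WD

/-- **The Euler factors at `p` of all smooth projective varieties over `ℚ` are integral and independent
of `ℓ` if and only if their Weil-Deligne representations at `p` are compatible.** -/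
theorem result {W : Type} [Group W] [TopologicalSpace W] [IsTopologicalGroup W]
    (G : WeilGroup W) {Λ : Type} {K : Λ → Type} [∀ ℓ, Field (K ℓ)] [∀ ℓ, CharZero (K ℓ)]
    {R : Realisations W Λ K} (𝒱 : WV.Varieties R) (hV : WV.IsCohomology G 𝒱) :
    WV.QOne G 𝒱 ↔ WV.Compatible 𝒱 :=
  WV.main hV

end Pool.Agent.Results.MP_898f40_nt.WeilDeligneVarieties
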